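import Pool.Agent.BLP.StmtsE

namespace Pool.Agent.BLP.H89

open MeasureTheory ProbabilityTheory Filter Topology Finset
open scoped ENNReal

noncomputable section

/-- Markov for the gap -/
theorem elv_tail1 (hS : SpkStmt) (hE : EexStmt) (hV : EmvStmt) {X : Type} [MeasurableSpace X]
    {μ : Measure X} {B : X → Env} {c : ℝ} (hSp : Sp μ B) (hc : LLNc μ B c) {q : ℚ} (hq : 0 < q)
    (k : ℤ) (y : ℚ) (Z : ℕ) (hk : k ≤ Z) (hy : (y : ℝ) ≤ Z * q) (γ t δ : ℝ)
    (hγ : c / 2 * (((Z : ℝ) - k) * Real.sqrt q + (Z * q - y) / Real.sqrt q) -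
        aa μ B ((Z : ℤ) - k + 1).toNat * Real.sqrt (Z * q - y) < γ) (ht : 0 < t)
    (hδ : γ ≤ t * δ) :
    ∃ n₀ : ℕ, ∀ n : ℕ, n₀ ≤ n → (∀ x, 0 ≤ L (B x) k y n (n * q) - L (B x) Z (Z * q) n (n * q) -
        L (B x) k y Z (Z * q)) ∧
      μ {x | t < L (B x) k y n (n * q) - L (B x) Z (Z * q) n (n * q) -
        L (B x) k y Z (Z * q)} ≤ ENNReal.ofReal δ := by
  have := hSp.prob
  have hq' : (0 : ℝ) < q := by exact_mod_cast hq
  have h1 := hV X μ B c hSp hc q hq k Z y (Z * q)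
  have hi := hE X μ B hSp k Z y (Z * q) hk (by exact_mod_cast hy)
  have h3 : ∀ᶠ n : ℕ in atTop, ∫ x, (L (B x) k y n (n * q) -
      L (B x) Z ((Z * q : ℚ) : ℝ) n (n * q)) ∂μ <
      γ + aa μ B ((Z : ℤ) - k + 1).toNat * Real.sqrt (Z * q - y) := by
    refine h1.eventually_lt_const ?_
    push_cast
    linarith
  obtain ⟨n₀, hn₀⟩ := eventually_atTop.1 h3
  refine ⟨max n₀ Z, fun n hn => ?_⟩
  have hn1 : n₀ ≤ n := le_trans (le_max_left _ _) hn
  have hn2 : Z ≤ n := le_trans (le_max_right _ _) hn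
  have hZn : (Z : ℝ) * q ≤ n * q := by
    have : (Z : ℝ) ≤ n := by exact_mod_cast hn2
    exact mul_le_mul_of_nonneg_right this hq'.le
  have hnn : ∀ x, 0 ≤ L (B x) k y n (n * q) - L (B x) Z (Z * q) n (n * q) -
        L (B x) k y Z (Z * q) := by
    intro x
    have := hS (B x) (hSp.cts x) k Z n y (Z * q) (n * q) hk (by exact_mod_cast hn2) hy hZn
    linarith
  refine ⟨hnn, ?_⟩
  have hI1 : Integrable (fun x => L (B x) k y n (n * q)) μ := by
    have := (hE X μ B hSp k n y (n * q) (le_trans hk (by exact_mod_cast hn2))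
      (by exact_mod_cast le_trans hy hZn)).1
    simpa using this
  have hI2 : Integrable (fun x => L (B x) Z (Z * q) n (n * q)) μ := by
    have := (hE X μ B hSp Z n (Z * q) (n * q) (by exact_mod_cast hn2)
      (by exact_mod_cast hZn)).1
    simpa using this
  have hI3 : Integrable (fun x => L (B x) k y Z (Z * q)) μ := by
    simpa using hi.1
  have hI : Integrable (fun x => L (B x) k y n (n * q) - L (B x) Z (Z * q) n (n * q) -
        L (B x) k y Z (Z * q)) μ := (hI1.sub hI2).sub hI3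
  have hint : ∫ x, (L (B x) k y n (n * q) - L (B x) Z (Z * q) n (n * q) -
        L (B x) k y Z (Z * q)) ∂μ < γ := by
    have e1 : ∫ x, (L (B x) k y n (n * q) - L (B x) Z (Z * q) n (n * q) -
        L (B x) k y Z (Z * q)) ∂μ = ∫ x, (L (B x) k y n (n * q) - L (B x) Z (Z * q) n (n * q)) ∂μ -
        ∫ x, L (B x) k y Z (Z * q) ∂μ := integral_sub (hI1.sub hI2) hI3
    have e2 : ∫ x, L (B x) k y Z (Z * q) ∂μ = aa μ B ((Z : ℤ) - k + 1).toNat *
      Real.sqrt (Z * q - y) := by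
      simpa using hi.2
    have e3 := hn₀ n hn1
    push_cast at e3
    rw [e1, e2]
    linarith
  have hM := mul_meas_ge_le_integral_of_nonneg (μ := μ) (Eventually.of_forall hnn) hI t
  have hsub : μ {x | t < L (B x) k y n (n * q) - L (B x) Z (Z * q) n (n * q) -
        L (B x) k y Z (Z * q)} ≤ μ {x | t ≤ L (B x) k y n (n * q) -
        L (B x) Z (Z * q) n (n * q) - L (B x) k y Z (Z * q)} :=
    measure_mono fun x (hx : t < _) => le_of_lt hx
  refine le_trans hsub ?_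
  rw [← ENNReal.ofReal_toReal (measure_ne_top μ _)]
  apply ENNReal.ofReal_le_ofReal
  have h5 : t * (μ {x | t ≤ L (B x) k y n (n * q) - L (B x) Z (Z * q) n (n * q) -
        L (B x) k y Z (Z * q)}).toReal ≤ t * δ := by
    have : t * μ.real {x | t ≤ L (B x) k y n (n * q) - L (B x) Z (Z * q) n (n * q) -
        L (B x) k y Z (Z * q)} ≤ t * δ := by linarith
    exact this
  exact le_of_mul_le_mul_left h5 ht

/-- the law of large numbers at one point -/
theorem elv_tail2 (hL : ElsStmt) {X : Type} [MeasurableSpace X]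
    {μ : Measure X} {B : X → Env} {c : ℝ} (hSp : Sp μ B) (hc : LLNc μ B c) (q : ℚ) (A η δ : ℝ)
    (hA : 0 < A) (hη : 0 < η) (hδ : 0 < δ) :
    ∃ N₀ : ℕ, ∀ (k : ℤ) (y : ℚ) (Z : ℕ), (N₀ : ℤ) ≤ Z - k → (y : ℝ) ≤ Z * q →
      (Z : ℝ) * q - y ≤ A * ((Z : ℝ) - k) → μ {x | η * ((Z : ℝ) - k) <
        |L (B x) k y Z (Z * q) - c * Real.sqrt (((Z : ℝ) - k) * (Z * q - y))|} ≤
          ENNReal.ofReal δ := by
  obtain ⟨N₀, h⟩ := hL X μ B c hSp hc A η δ hA hη hδ
  refine ⟨N₀, fun k y Z h1 h2 h3 => ?_⟩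
  refine le_trans (measure_mono ?_) (h k Z y h1)
  intro x hx
  refine ⟨Z * q, h2, by push_cast; linarith, ?_⟩
  simpa using hx

theorem e_elv (hS : SpkStmt) (hE : EexStmt) (hV : EmvStmt) (hL : ElsStmt) (hG : EgmStmt) :
    ElvStmt := by
  intro X _ μ B c hSp hc q hq m s A η δ hA hη hδ
  have hq' : (0 : ℝ) < q := by exact_mod_cast hq
  have hc0 : 0 < c := hc.1
  obtain ⟨A', hA'⟩ : ∃ A' : ℝ, A' = A + |(m : ℝ)| + |(s : ℝ)| + 1 := ⟨_, rfl⟩
  have hA'1 : 1 ≤ A' := by
    have := abs_nonneg (m : ℝ); have := abs_nonneg (s : ℝ); linarith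
  have hAA' : A ≤ A' := by
    have := abs_nonneg (m : ℝ); have := abs_nonneg (s : ℝ); linarith
  have hmA' : |(m : ℝ)| ≤ A' := by
    have := abs_nonneg (m : ℝ); have := abs_nonneg (s : ℝ); linarith
  have hsA' : |(s : ℝ)| ≤ A' := by
    have := abs_nonneg (m : ℝ); have := abs_nonneg (s : ℝ); linarith
  obtain ⟨η₁, hη₁⟩ : ∃ η₁ : ℝ, η₁ = min (η * δ / 64) (η / 8) := ⟨_, rfl⟩
  have hη₁0 : 0 < η₁ := by rw [hη₁]; positivity
  have hη₁1 : η₁ ≤ η * δ / 64 := by rw [hη₁]; exact min_le_left _ _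
  have hη₁2 : η₁ ≤ η / 8 := by rw [hη₁]; exact min_le_right _ _
  obtain ⟨K, M₀, hK1, hK2, hK3, hEG⟩ := hG (aa μ B) c hc0 hc.2.1 q A' η₁ hq' (by linarith) hη₁0
  have hK1' : (1 : ℝ) ≤ K := by exact_mod_cast hK1
  obtain ⟨N₀, hN₀⟩ := elv_tail2 hL hSp hc q (2 * (q + A') + 2) (η / (16 * K)) (δ / 4)
    (by linarith) (by positivity) (by positivity)
  obtain ⟨M₂, hM₂⟩ := exists_nat_ge (8 * |c / 2 * (m * Real.sqrt q + s / Real.sqrt q)| / η)
  refine ⟨max (max M₀ 1) (max (2 * N₀) M₂), fun M hM k y hk hy => ?_⟩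
  have hM0 : M₀ ≤ M := le_trans (le_trans (le_max_left _ _) (le_max_left _ _)) hM
  have hM1 : 1 ≤ M := le_trans (le_trans (le_max_right _ _) (le_max_left _ _)) hM
  have hMN : 2 * N₀ ≤ M := le_trans (le_trans (le_max_left _ _) (le_max_right _ _)) hM
  have hM2 : M₂ ≤ M := le_trans (le_trans (le_max_right _ _) (le_max_right _ _)) hM
  have hM1' : (1 : ℝ) ≤ M := by exact_mod_cast hM1
  have hMN' : 2 * (N₀ : ℝ) ≤ M := by exact_mod_cast hMN
  have hM2' : (M₂ : ℝ) ≤ M := by exact_mod_cast hM2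
  have hlam : |c / 2 * (m * Real.sqrt q + s / Real.sqrt q)| ≤ η * M / 8 := by
    have h1 : 8 * |c / 2 * (m * Real.sqrt q + s / Real.sqrt q)| / η ≤ M := le_trans hM₂ hM2'
    rw [div_le_iff₀ hη] at h1
    linarith
  -- the general facts for a point
  have key : ∀ (k : ℤ) (y : ℚ), |(k : ℝ)| ≤ A' * M → |(y : ℝ)| ≤ A' * M →
      ∃ n₀ : ℕ, ∀ n : ℕ, n₀ ≤ n → ∃ S : Set X, μ S ≤ ENNReal.ofReal (δ / 4 + δ / 4) ∧
        ∀ x, x ∉ S → |L (B x) k y n (n * q) - L (B x) (K * M : ℕ) ((K * M : ℕ) * q) n (n * q) -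
          c / 2 * (((K : ℝ) * M - k) * Real.sqrt q + (K * M * q - y) / Real.sqrt q)| ≤
            3 * (η * M / 8) := by
    intro k y hk hy
    obtain ⟨e1, e2, e3, e4⟩ := hEG M hM0 k y hk hy
    have hk' := abs_le.1 hk
    have hy' := abs_le.1 hy
    have hZk : ((K * M : ℕ) : ℝ) - k = (K : ℝ) * M - k := by push_cast; ring
    have hKM : (1 : ℝ) ≤ K * M := by nlinarith
    have hAK : A' * M ≤ K * M / 2 := by nlinarith
    have hZk2 : (K : ℝ) * M / 2 ≤ K * M - k := by linarith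
    have hZk3 : (K : ℝ) * M - k ≤ 2 * (K * M) := by linarith
    have hη₁M : 0 < η₁ * M := by positivity
    have hMK : (M : ℝ) ≤ K * M := by nlinarith
    obtain ⟨n₀, hn₀⟩ := elv_tail1 hS hE hV hSp hc hq k y (K * M) (by exact_mod_cast e1)
      (by push_cast; exact e2) (2 * (η₁ * M)) (η * M / 8) (δ / 4)
      (by push_cast; linarith) (by positivity) (by
        have h1 : η₁ * M ≤ η * δ / 64 * M := mul_le_mul_of_nonneg_right hη₁1 (by linarith)
        linarith)
    have p1 : (N₀ : ℤ) ≤ ((K * M : ℕ) : ℤ) - k := by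
      have h2 : (((N₀ : ℕ) : ℤ) : ℝ) ≤ ((((K * M : ℕ) : ℤ) - k : ℤ) : ℝ) := by
        push_cast
        linarith
      exact Int.cast_le.1 h2
    have p2 : (y : ℝ) ≤ ((K * M : ℕ) : ℝ) * q := by push_cast; exact e2
    have p3 : ((K * M : ℕ) : ℝ) * q - y ≤ (2 * (q + A') + 2) * (((K * M : ℕ) : ℝ) - k) := by
      rw [hZk]
      push_cast
      have h1 : (2 * ((q : ℝ) + A') + 2) * ((K : ℝ) * M / 2) ≤
          (2 * ((q : ℝ) + A') + 2) * ((K : ℝ) * M - k) :=
          mul_le_mul_of_nonneg_left hZk2 (by linarith)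
      have h2 : A' * M ≤ A' * (K * M) := mul_le_mul_of_nonneg_left hMK (by linarith)
      linarith [hy'.1]
    have hA1 := hN₀ k y (K * M) p1 p2 p3
    refine ⟨n₀, fun n hn => ?_⟩
    obtain ⟨hnn, hmu⟩ := hn₀ n hn
    refine ⟨_ ∪ _, le_trans (measure_union_le _ _) (le_trans (add_le_add hmu hA1) ?_), ?_⟩
    · rw [← ENNReal.ofReal_add (by positivity) (by positivity)]
    · intro x hx
      rw [Set.mem_union, not_or] at hx
      obtain ⟨hx1, hx2⟩ := hx
      rw [Set.mem_ofPred_eq, not_lt] at hx1 hx2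
      have hx3 := hnn x
      have h4 : η / (16 * K) * (((K * M : ℕ) : ℝ) - k) ≤ η * M / 8 := by
        rw [hZk]
        have : η / (16 * K) * ((K : ℝ) * M - k) ≤ η / (16 * K) * (2 * (K * M)) :=
          mul_le_mul_of_nonneg_left hZk3 (by positivity)
        have h5 : η / (16 * (K : ℝ)) * (2 * (K * M)) = η * M / 8 := by
          field_simp
          ring
        linarith
      have h5 := le_trans hx2 h4
      have h6 : |c / 2 * (((K : ℝ) * M - k) * Real.sqrt q + (K * M * q - y) / Real.sqrt q) -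
        c * Real.sqrt (((K : ℝ) * M - k) * (K * M * q - y))| ≤ η * M / 8 :=
        le_trans e4 (by
          have h1 : η₁ * M ≤ η / 8 * M := mul_le_mul_of_nonneg_right hη₁2 (by linarith)
          linarith)
      push_cast at h5 hx1 hx3 ⊢
      have h5' := abs_le.1 h5
      have h6' := abs_le.1 h6
      rw [abs_le]
      constructor
      · linarith [h5'.1, h6'.2]
      · linarith [h5'.2, h6'.1]
  have hMA : ∀ {a : ℝ}, a ≤ A' → a ≤ A' * M := fun {a} ha => by nlinarith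
  obtain ⟨n₁, h₁⟩ := key m s (hMA hmA') (hMA hsA')
  obtain ⟨n₂, h₂⟩ := key k y (le_trans hk (by nlinarith)) (le_trans hy (by nlinarith))
  refine ⟨max n₁ n₂, fun n hn => ?_⟩
  obtain ⟨S₁, hS₁, hx₁⟩ := h₁ n (le_trans (le_max_left _ _) hn)
  obtain ⟨S₂, hS₂, hx₂⟩ := h₂ n (le_trans (le_max_right _ _) hn)
  have hsub : {x | η * M < |L (B x) m s n (n * q) - L (B x) k y n (n * q) -
          c / 2 * (k * Real.sqrt q + y / Real.sqrt q)|} ⊆ S₁ ∪ S₂ := by
    intro x hx
    by_contra hns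
    rw [Set.mem_union, not_or] at hns
    have a1 := abs_le.1 (hx₁ x hns.1)
    have a2 := abs_le.1 (hx₂ x hns.2)
    have a3 := abs_le.1 hlam
    have hηM : 0 < η * M := by positivity
    have hlt : η * M < |L (B x) m s n (n * q) - L (B x) k y n (n * q) -
          c / 2 * (k * Real.sqrt q + y / Real.sqrt q)| := hx
    have hle : |L (B x) m s n (n * q) - L (B x) k y n (n * q) -
          c / 2 * (k * Real.sqrt q + y / Real.sqrt q)| ≤ 7 * (η * M / 8) := by
      have i1 : c / 2 * (((K : ℝ) * M - m) * Real.sqrt q + (K * M * q - s) / Real.sqrt q) -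
          c / 2 * (((K : ℝ) * M - k) * Real.sqrt q + (K * M * q - y) / Real.sqrt q) =
          c / 2 * (k * Real.sqrt q + y / Real.sqrt q) -
            c / 2 * (m * Real.sqrt q + s / Real.sqrt q) := by
        ring
      rw [abs_le]
      constructor
      · linarith [a1.1, a2.2, a3.2]
      · linarith [a1.2, a2.1, a3.1]
    linarith
  refine le_trans (measure_mono hsub) (le_trans (measure_union_le _ _)
    (le_trans (add_le_add hS₁ hS₂) ?_))
  rw [← ENNReal.ofReal_add (by positivity) (by positivity)]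
  apply ENNReal.ofReal_le_ofReal
  linarith

end

end Pool.Agent.BLP.H89
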